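import Mathlib

/-!
# Congruences between rational numbers with denominators prime to `p`
-/

set_option autoImplicit false

namespace Q279.BA

open Finset

/-- `x` is `p ^ k` times a rational number with denominator prime to `p` -/
def D (p k : ℕ) (x : ℚ) : Prop := ∃ (a : ℤ) (b : ℕ), ¬ p ∣ b ∧ x * b = (p : ℚ) ^ k * a

variable {p : ℕ} [hp : Fact p.Prime]

omit hp in
theorem ne_zero_of_not_dvd {b : ℕ} (h : ¬ p ∣ b) : (b : ℚ) ≠ 0 := by
  intro h1
  have : b = 0 := by exact_mod_cast h1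
  subst this
  exact h (dvd_zero _)

theorem not_dvd_one' : ¬ p ∣ 1 := hp.out.one_lt.ne' ∘ Nat.dvd_one.1

theorem not_dvd_mul {a b : ℕ} (ha : ¬ p ∣ a) (hb : ¬ p ∣ b) : ¬ p ∣ a * b := by
  intro h
  rcases hp.out.dvd_mul.1 h with h | h
  · exact ha h
  · exact hb h

theorem D.zero (k : ℕ) : D p k 0 := ⟨0, 1, not_dvd_one', by simp⟩

theorem D.add {k : ℕ} {x y : ℚ} (hx : D p k x) (hy : D p k y) : D p k (x + y) := by
  obtain ⟨a, b, hb, h1⟩ := hx
  obtain ⟨c, d, hd, h2⟩ := hy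
  refine ⟨a * d + c * b, b * d, not_dvd_mul hb hd, ?_⟩
  push_cast
  linear_combination d * h1 + b * h2

omit hp in
theorem D.neg {k : ℕ} {x : ℚ} (hx : D p k x) : D p k (-x) := by
  obtain ⟨a, b, hb, h1⟩ := hx
  refine ⟨-a, b, hb, ?_⟩
  push_cast
  linear_combination -h1

theorem D.sub {k : ℕ} {x y : ℚ} (hx : D p k x) (hy : D p k y) : D p k (x - y) := by
  rw [sub_eq_add_neg]
  exact hx.add hy.neg

theorem D.mul {k l : ℕ} {x y : ℚ} (hx : D p k x) (hy : D p l y) : D p (k + l) (x * y) := by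
  obtain ⟨a, b, hb, h1⟩ := hx
  obtain ⟨c, d, hd, h2⟩ := hy
  refine ⟨a * c, b * d, not_dvd_mul hb hd, ?_⟩
  push_cast
  rw [pow_add]
  calc x * y * (b * d) = (x * b) * (y * d) := by ring
    _ = _ := by rw [h1, h2]; ring

theorem D.mul0 {k : ℕ} {x y : ℚ} (hx : D p 0 x) (hy : D p k y) : D p k (x * y) := by
  have := hx.mul hy
  rwa [zero_add] at this

theorem D.mul0' {k : ℕ} {x y : ℚ} (hx : D p k x) (hy : D p 0 y) : D p k (x * y) := by
  have := hx.mul hy
  rwa [add_zero] at this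

omit hp in
theorem D.mono {k l : ℕ} {x : ℚ} (hx : D p k x) (h : l ≤ k) : D p l x := by
  obtain ⟨a, b, hb, h1⟩ := hx
  refine ⟨p ^ (k - l) * a, b, hb, ?_⟩
  push_cast
  rw [h1, ← mul_assoc, ← pow_add, Nat.add_sub_cancel' h]

theorem D.sum {ι : Type*} {k : ℕ} (s : Finset ι) (f : ι → ℚ) (h : ∀ i ∈ s, D p k (f i)) : D p k (∑ i ∈ s, f i) := by
  classical
  induction s using Finset.induction_on with
  | empty => simpa using D.zero k
  | insert a s ha ih =>
    rw [Finset.sum_insert ha]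
    exact (h a (Finset.mem_insert_self a s)).add (ih fun i hi => h i (Finset.mem_insert_of_mem hi))

theorem D.int (n : ℤ) : D p 0 (n : ℚ) := ⟨n, 1, not_dvd_one', by simp⟩

theorem D.nat (n : ℕ) : D p 0 (n : ℚ) := ⟨n, 1, not_dvd_one', by simp⟩

theorem D.one : D p 0 (1 : ℚ) := ⟨1, 1, not_dvd_one', by simp⟩

theorem D.ppow (k : ℕ) : D p k ((p : ℚ) ^ k) := ⟨1, 1, not_dvd_one', by simp⟩

omit hp in
theorem D.inv {n : ℕ} (hn : ¬ p ∣ n) : D p 0 (1 / (n : ℚ)) := by
  refine ⟨1, n, hn, ?_⟩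
  have := ne_zero_of_not_dvd hn
  field_simp
  simp

theorem D.pow0 {x : ℚ} (hx : D p 0 x) (n : ℕ) : D p 0 (x ^ n) := by
  induction n with
  | zero => rw [pow_zero]; exact D.one
  | succ n ih =>
    rw [pow_succ]
    exact ih.mul0 hx

theorem D.prod0 {ι : Type*} (s : Finset ι) (f : ι → ℚ) (h : ∀ i ∈ s, D p 0 (f i)) : D p 0 (∏ i ∈ s, f i) := by
  classical
  induction s using Finset.induction_on with
  | empty => simpa using D.one
  | insert a s ha ih =>
    rw [Finset.prod_insert ha]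
    exact (h a (Finset.mem_insert_self a s)).mul0 (ih fun i hi => h i (Finset.mem_insert_of_mem hi))

/-- a product of numbers congruent to `1` -/
theorem D.prod_one {ι : Type*} {k : ℕ} (s : Finset ι) (f : ι → ℚ) (h : ∀ i ∈ s, D p k (f i - 1)) :
    D p k (∏ i ∈ s, f i - 1) := by
  classical
  induction s using Finset.induction_on with
  | empty => simpa using D.zero k
  | insert a s ha ih =>
    rw [Finset.prod_insert ha]
    have h1 := h a (Finset.mem_insert_self a s)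
    have h2 := ih fun i hi => h i (Finset.mem_insert_of_mem hi)
    have h3 : D p 0 (f a) := by
      have := (h1.mono (Nat.zero_le k)).add D.one
      rwa [sub_add_cancel] at this
    have e : f a * ∏ x ∈ s, f x - 1 = f a * (∏ x ∈ s, f x - 1) + (f a - 1) := by ring
    rw [e]
    exact (h3.mul0 h2).add h1

/-- a product of numbers `1 + x_i`, to second order -/
theorem D.prod_two {ι : Type*} {k : ℕ} (s : Finset ι) (f : ι → ℚ) (h : ∀ i ∈ s, D p k (f i)) :
    D p (k + k) (∏ i ∈ s, (1 + f i) - 1 - ∑ i ∈ s, f i) := by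
  classical
  induction s using Finset.induction_on with
  | empty => simpa using D.zero (k + k)
  | insert a s ha ih =>
    rw [Finset.prod_insert ha, Finset.sum_insert ha]
    have h1 := h a (Finset.mem_insert_self a s)
    have h2 := ih fun i hi => h i (Finset.mem_insert_of_mem hi)
    have h4 : D p k (∏ x ∈ s, (1 + f x) - 1) := by
      refine D.prod_one s _ fun i hi => ?_
      rw [add_sub_cancel_left]
      exact h i (Finset.mem_insert_of_mem hi)
    have e : (1 + f a) * ∏ x ∈ s, (1 + f x) - 1 - (f a + ∑ i ∈ s, f i)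
        = (∏ x ∈ s, (1 + f x) - 1 - ∑ i ∈ s, f i) + f a * (∏ x ∈ s, (1 + f x) - 1) := by ring
    rw [e]
    exact h2.add (h1.mul h4)

theorem D.dvd {k : ℕ} {n : ℤ} (h : D p k (n : ℚ)) : (p : ℤ) ^ k ∣ n := by
  obtain ⟨a, b, hb, h1⟩ := h
  have h2 : n * (b : ℤ) = (p : ℤ) ^ k * a := by exact_mod_cast h1
  have h3 : IsCoprime ((p : ℤ) ^ k) (b : ℤ) := by
    apply IsCoprime.pow_left
    rw [Nat.isCoprime_iff_coprime]
    exact (Nat.Prime.coprime_iff_not_dvd hp.out).2 hb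
  exact h3.dvd_of_dvd_mul_right ⟨a, h2⟩

theorem D.of_dvd {k : ℕ} {n : ℤ} (h : (p : ℤ) ^ k ∣ n) : D p k (n : ℚ) := by
  obtain ⟨a, rfl⟩ := h
  exact ⟨a, 1, not_dvd_one', by push_cast; ring⟩

/-- cancel a factor prime to `p` -/
theorem D.cancel {k n : ℕ} {x : ℚ} (hn : ¬ p ∣ n) (h : D p k ((n : ℚ) * x)) : D p k x := by
  have := (D.inv hn).mul0 h
  have hn0 := ne_zero_of_not_dvd hn
  rwa [← mul_assoc, one_div, inv_mul_cancel₀ hn0, one_mul] at this

/-- `1 / i ^ k`, or `0` if `p ∣ i` -/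
def q (p k i : ℕ) : ℚ := if p ∣ i then 0 else 1 / (i : ℚ) ^ k

theorem D_q (k i : ℕ) : D p 0 (q p k i) := by
  unfold q
  split_ifs with h
  · exact D.zero 0
  · rw [← one_div_pow]
    exact (D.inv h).pow0 k

/-- congruent arguments -/
theorem D_q_congr {k s i j : ℕ} (hs : 1 ≤ s) (h : (p : ℤ) ^ s ∣ (i : ℤ) - j) : D p s (q p k i - q p k j) := by
  have hpj : p ∣ i ↔ p ∣ j := by
    have h1 : (p : ℤ) ∣ (i : ℤ) - j := (dvd_pow_self _ (by omega)).trans h
    rw [← Int.natCast_dvd_natCast, ← Int.natCast_dvd_natCast]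
    exact (dvd_iff_dvd_of_dvd_sub h1)
  unfold q
  by_cases hi : p ∣ i
  · rw [if_pos hi, if_pos (hpj.1 hi), sub_zero]
    exact D.zero s
  · have hj : ¬ p ∣ j := fun h => hi (hpj.2 h)
    rw [if_neg hi, if_neg hj]
    have hi0 := ne_zero_of_not_dvd hi
    have hj0 := ne_zero_of_not_dvd hj
    have e : 1 / (i : ℚ) ^ k - 1 / (j : ℚ) ^ k
        = (1 / (i : ℚ)) ^ k * (1 / (j : ℚ)) ^ k * (((j : ℤ) ^ k - (i : ℤ) ^ k : ℤ) : ℚ) := by
      push_cast
      rw [one_div_pow, one_div_pow]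
      field_simp
    rw [e]
    refine (((D.inv hi).pow0 k).mul0 ((D.inv hj).pow0 k)).mul0 (D.of_dvd ?_)
    refine (h.trans ?_).trans (sub_dvd_pow_sub_pow _ _ k)
    rw [← neg_sub, neg_dvd]

end Q279.BA
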