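import Pool.Agent.Q279.BA.Main

/-!
# Estimates for the sums
-/

set_option autoImplicit false
set_option linter.unusedSectionVars false

namespace Q279.BA

open Finset

variable {p : ℕ} [hp : Fact p.Prime]

theorem p_ne : (p : ℚ) ≠ 0 := by exact_mod_cast hp.out.ne_zero

theorem D_ratio {m e l : ℕ} (hl : ¬ p ∣ l) (he : e ≤ m) :
    D p (m - e) (((p ^ m : ℕ) : ℚ) / ((p ^ e * l : ℕ) : ℚ)) := by
  have hl0 := ne_zero_of_not_dvd hl
  have hp0 : (p : ℚ) ≠ 0 := p_ne
  have e1 : (((p ^ m : ℕ) : ℚ) / ((p ^ e * l : ℕ) : ℚ)) = (p : ℚ) ^ (m - e) * (1 / (l : ℚ)) := by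
    push_cast
    obtain ⟨d, rfl⟩ := Nat.exists_eq_add_of_le he
    rw [Nat.add_sub_cancel_left, pow_add]
    field_simp
  rw [e1]
  exact (D.ppow (m - e)).mul0' (D.inv hl)

theorem D_ratio1 {m i : ℕ} (hi : i < p ^ m) : D p 1 (((p ^ m : ℕ) : ℚ) / (i : ℚ)) := by
  rcases Nat.eq_zero_or_pos i with rfl | h
  · simpa using D.zero 1
  · obtain ⟨e, l, hl, he⟩ := Nat.exists_eq_pow_mul_and_not_dvd h.ne' p hp.out.ne_one
    have hem : e < m := by
      by_contra hc
      push Not at hc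
      have h1 : p ^ m ≤ p ^ e := Nat.pow_le_pow_right hp.out.pos hc
      have h2 : p ^ e ≤ i := by
        rw [he]
        refine Nat.le_mul_of_pos_right _ ?_
        rcases Nat.eq_zero_or_pos l with rfl | h3
        · exact absurd (dvd_zero p) hl
        · exact h3
      omega
    rw [he]
    exact (D_ratio hl hem.le).mono (by omega)

theorem D_factor {m i : ℕ} (hi : i < p ^ m) : D p 2 (((p ^ m : ℕ) : ℚ) ^ 2 / (i : ℚ) ^ 2) := by
  rw [← div_pow, pow_two]
  exact (D_ratio1 hi).mul (D_ratio1 hi)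

theorem D_G1 {m j : ℕ} (hj : j ≤ p ^ m) : D p 2 (G (p ^ m) j - 1) := by
  unfold G
  refine D.prod_one _ _ fun i hi => ?_
  rw [Finset.mem_range] at hi
  rw [sub_sub_cancel_left]
  exact (D_factor (by omega)).neg

theorem D_G0 {m j : ℕ} (hj : j ≤ p ^ m) : D p 0 (G (p ^ m) j) := by
  have := ((D_G1 hj).mono (Nat.zero_le 2)).add D.one
  rwa [sub_add_cancel] at this

theorem D_Gsq {m j : ℕ} (hj : j ≤ p ^ m) : D p 2 (G (p ^ m) j ^ 2 - 1) := by
  have e : G (p ^ m) j ^ 2 - 1 = (G (p ^ m) j + 1) * (G (p ^ m) j - 1) := by ring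
  rw [e]
  exact ((D_G0 hj).add D.one).mul0 (D_G1 hj)

theorem q_of {k j : ℕ} (h : ¬ p ∣ j) : q p k j = 1 / (j : ℚ) ^ k := by
  unfold q
  rw [if_neg h]

theorem q_zero_of {k j : ℕ} (h : p ∣ j) : q p k j = 0 := by
  unfold q
  rw [if_pos h]

/-- pairing `j` with `n - j` -/
theorem pair {r : ℕ} (hr : 1 ≤ r) : D p (r + r) (2 * ∑ j ∈ range (p ^ r), q p 3 j
    + 3 * ((p ^ r : ℕ) : ℚ) * ∑ j ∈ range (p ^ r), q p 4 j) := by
  set n := p ^ r with hn
  have hpn : p ∣ n := dvd_pow_self p (by omega)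
  have e1 : ∑ j ∈ range n, q p 3 j = ∑ j ∈ range (n + 1), q p 3 j := by
    rw [Finset.sum_range_succ, q_zero_of hpn, add_zero]
  have e2 : ∑ j ∈ range (n + 1), q p 3 j = ∑ j ∈ range (n + 1), q p 3 (n - j) := by
    rw [← Finset.sum_range_reflect]
    exact Finset.sum_congr rfl fun j _ => by rw [Nat.add_sub_cancel]
  have e4 : ∑ j ∈ range n, q p 4 j = ∑ j ∈ range (n + 1), q p 4 j := by
    rw [Finset.sum_range_succ, q_zero_of hpn, add_zero]
  have e3 : 2 * ∑ j ∈ range n, q p 3 j + 3 * (n : ℚ) * ∑ j ∈ range n, q p 4 j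
      = ∑ j ∈ range (n + 1), (q p 3 j + q p 3 (n - j) + 3 * (n : ℚ) * q p 4 j) := by
    rw [Finset.sum_add_distrib, Finset.sum_add_distrib, ← e2, ← Finset.mul_sum, ← e1, ← e4]
    ring
  rw [e3]
  refine D.sum _ _ fun j hj => ?_
  rw [Finset.mem_range] at hj
  by_cases h : p ∣ j
  · have h' : p ∣ n - j := Nat.dvd_sub hpn h
    rw [q_zero_of h, q_zero_of h, q_zero_of h']
    simpa using D.zero (r + r)
  · have h' : ¬ p ∣ n - j := by
      intro h1
      apply h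
      have := Nat.dvd_sub hpn h1
      rwa [Nat.sub_sub_self (by omega)] at this
    rw [q_of h, q_of h, q_of h']
    have hj0 := ne_zero_of_not_dvd h
    have hk0 := ne_zero_of_not_dvd h'
    have hcast : ((n - j : ℕ) : ℚ) = n - j := Nat.cast_sub (by omega)
    have e : 1 / (j : ℚ) ^ 3 + 1 / ((n - j : ℕ) : ℚ) ^ 3 + 3 * (n : ℚ) * (1 / (j : ℚ) ^ 4)
        = ((p : ℚ) ^ r * (p : ℚ) ^ r) * ((((6 * j ^ 2 - 8 * j * n + 3 * n ^ 2 : ℤ)) : ℚ)
          * ((1 / (j : ℚ)) ^ 4 * (1 / ((n - j : ℕ) : ℚ)) ^ 3)) := by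
      have hnp : (p : ℚ) ^ r = n := by rw [hn]; push_cast; rfl
      rw [hnp]
      rw [hcast] at hk0 ⊢
      push_cast
      field_simp
      ring
    rw [e]
    exact ((D.ppow r).mul (D.ppow r)).mul0' ((D.int _).mul0 (((D.inv h).pow0 4).mul0 ((D.inv h').pow0 3)))

/-- the part of the sum over indices prime to `p` -/
theorem part_eq (n : ℕ) : ∑ j ∈ range n, (if p ∣ j then 0 else τ n j)
    = -(n : ℚ) ^ 3 * (∑ j ∈ range n, q p 3 j - n * ∑ j ∈ range n, q p 4 j
      + (∑ j ∈ range n, q p 3 j * (G n j ^ 2 - 1) - n * ∑ j ∈ range n, q p 4 j * (G n j ^ 2 - 1))) := by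
  rw [Finset.mul_sum, Finset.mul_sum, ← Finset.sum_sub_distrib, ← Finset.sum_sub_distrib, ← Finset.sum_add_distrib,
    Finset.mul_sum]
  refine Finset.sum_congr rfl fun j _ => ?_
  by_cases h : p ∣ j
  · rw [if_pos h, q_zero_of h, q_zero_of h]
    ring
  · rw [if_neg h, q_of h, q_of h]
    have hj0 := ne_zero_of_not_dvd h
    unfold τ
    field_simp
    ring

theorem not_dvd_of_lt {c : ℕ} (h0 : 0 < c) (h : c < p) : ¬ p ∣ c := fun h1 => by
  have := Nat.le_of_dvd h0 h1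
  omega

theorem harm_two {s : ℕ} (hs : 1 ≤ s) (hp5 : 5 ≤ p) : D p s (∑ i ∈ range (p ^ s), q p 2 i) := by
  refine harm 2 s 2 hs (not_dvd_of_lt (by norm_num) (by omega)) ?_
  intro h
  have h1 : (p : ℤ) ∣ 3 := by norm_num at h; exact h
  have h2 : p ∣ 3 := by exact_mod_cast h1
  have := Nat.le_of_dvd (by norm_num) h2
  omega

theorem harm_three {s : ℕ} (hs : 1 ≤ s) (hp5 : 5 ≤ p) : D p s (∑ i ∈ range (p ^ s), q p 3 i) := by
  refine harm 3 s (p - 1) hs (not_dvd_of_lt (by omega) (by omega)) ?_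
  intro h
  have e : (((p - 1 : ℕ) : ℤ)) ^ 3 - 1 = (p : ℤ) * (p ^ 2 - 3 * p + 3) - 2 := by
    rw [Nat.cast_sub (by omega)]
    push_cast
    ring
  rw [e] at h
  have h1 : (p : ℤ) ∣ 2 := by
    have := (dvd_sub_right (dvd_mul_right (p : ℤ) (p ^ 2 - 3 * p + 3))).1 h
    exact this
  have h2 : p ∣ 2 := by exact_mod_cast h1
  have := Nat.le_of_dvd (by norm_num) h2
  omega

theorem harm_four {s : ℕ} (hs : 1 ≤ s) (hp7 : 7 ≤ p) : D p s (∑ i ∈ range (p ^ s), q p 4 i) := by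
  refine harm 4 s 2 hs (not_dvd_of_lt (by norm_num) (by omega)) ?_
  intro h
  have h1 : (p : ℤ) ∣ 15 := by norm_num at h; exact h
  have h2 : p ∣ 15 := by exact_mod_cast h1
  have h3 : p ∣ 3 * 5 := by norm_num; exact h2
  rcases hp.out.dvd_mul.1 h3 with h4 | h4
  · have := Nat.le_of_dvd (by norm_num) h4
    omega
  · have := Nat.le_of_dvd (by norm_num) h4
    omega

/-- the case of a prime -/
theorem prime_case (hp5 : 5 ≤ p) : (p : ℤ) ^ 5 ∣ (a p : ℤ) - 1 := by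
  have hpos := hp.out.pos
  have h0 := a_eq p hpos
  have hs := split_sum (p := p) 1 (fun j => τ p j)
  rw [mul_one, Finset.sum_range_one, mul_zero, τ_zero, zero_add, part_eq] at hs
  rw [hs] at h0
  have hpair := pair (p := p) (r := 1) le_rfl
  rw [pow_one] at hpair
  have h4 : D p 2 (5 * (p : ℚ) * ∑ j ∈ range p, q p 4 j) := by
    rcases eq_or_lt_of_le hp5 with h5 | h5
    · have h6 : D p 0 (∑ j ∈ range p, q p 4 j) := D.sum _ _ fun j _ => D_q 4 j
      have e : 5 * (p : ℚ) = (p : ℚ) ^ 2 := by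
        have : (p : ℚ) = 5 := by exact_mod_cast h5.symm
        rw [this]; norm_num
      rw [e]
      exact (D.ppow 2).mul0' h6
    · have h7 : 7 ≤ p := by
        rcases (show p = 6 ∨ 7 ≤ p by omega) with h | h
        · rw [h] at hp
          exact absurd hp.out (by norm_num)
        · exact h
      have h8 := harm_four (p := p) (s := 1) le_rfl h7
      rw [pow_one] at h8
      have h9 : D p 1 (5 * (p : ℚ)) := by
        have := (D.nat (p := p) 5).mul0 (D.ppow (p := p) 1)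
        rw [pow_one] at this
        exact_mod_cast this
      exact h9.mul h8
  have hG : ∀ j ∈ range p, D p 2 (G p j ^ 2 - 1) := by
    intro j hj
    rw [Finset.mem_range] at hj
    have := D_Gsq (p := p) (m := 1) (j := j) (by rw [pow_one]; omega)
    rwa [pow_one] at this
  have h5 : D p 2 (∑ j ∈ range p, q p 3 j * (G p j ^ 2 - 1)) :=
    D.sum _ _ fun j hj => (D_q 3 j).mul0 (hG j hj)
  have h6 : D p 2 ((p : ℚ) * ∑ j ∈ range p, q p 4 j * (G p j ^ 2 - 1)) :=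
    (D.nat p).mul0 (D.sum _ _ fun j hj => (D_q 4 j).mul0 (hG j hj))
  have h7 : D p 2 (∑ j ∈ range p, q p 3 j - p * ∑ j ∈ range p, q p 4 j) := by
    have h2 : ¬ p ∣ 2 := not_dvd_of_lt (by norm_num) (by omega)
    refine D.cancel h2 ?_
    have e : ((2 : ℕ) : ℚ) * (∑ j ∈ range p, q p 3 j - p * ∑ j ∈ range p, q p 4 j)
        = (2 * ∑ j ∈ range p, q p 3 j + 3 * (p : ℚ) * ∑ j ∈ range p, q p 4 j)
          - 5 * (p : ℚ) * ∑ j ∈ range p, q p 4 j := by
      push_cast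
      ring
    rw [e]
    exact hpair.sub h4
  have h8 : D p (3 + 2) (((a p : ℤ) - 1 : ℤ) : ℚ) := by
    push_cast
    rw [h0, add_sub_cancel_left]
    exact (D.ppow 3).neg.mul (h7.add (h5.sub h6))
  exact D.dvd h8

end Q279.BA
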