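import Pool.Agent.Q279.BA.Pow

/-!
# Prime powers: conclusion
-/

set_option autoImplicit false
set_option linter.unusedSectionVars false

namespace Q279.BA

open Finset

variable {p : ℕ} [hp : Fact p.Prime]

/-- within a block the product changes very little -/
theorem G_block {r m y : ℕ} (hr : 2 ≤ r) (hy : y < p - 1) (hlt : p * m + 1 + y ≤ p ^ r) :
    D p 4 (G (p ^ r) (p * m + 1 + y) - G (p ^ r) (p * m + 1)) := by
  have h0 : D p 0 (G (p ^ r) (p * m + 1)) := D_G0 (by omega)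
  have e : G (p ^ r) (p * m + 1 + y) = G (p ^ r) (p * m + 1)
      * ∏ i ∈ range y, (1 - ((p ^ r : ℕ) : ℚ) ^ 2 / ((p * m + 1 + i : ℕ) : ℚ) ^ 2) := by
    unfold G
    rw [Finset.prod_range_add]
  rw [e]
  have h1 : D p 4 (∏ i ∈ range y, (1 - ((p ^ r : ℕ) : ℚ) ^ 2 / ((p * m + 1 + i : ℕ) : ℚ) ^ 2) - 1) := by
    refine D.prod_one _ _ fun i hi => ?_
    rw [Finset.mem_range] at hi
    rw [sub_sub_cancel_left]
    have hnd : ¬ p ∣ p * m + 1 + i := by
      intro h
      rw [add_assoc] at h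
      have := Nat.le_of_dvd (by omega) ((Nat.dvd_add_right (dvd_mul_right p m)).1 h)
      omega
    have e2 : ((p ^ r : ℕ) : ℚ) ^ 2 / ((p * m + 1 + i : ℕ) : ℚ) ^ 2
        = (p : ℚ) ^ (2 * r) * (1 / ((p * m + 1 + i : ℕ) : ℚ)) ^ 2 := by
      rw [one_div_pow, Nat.cast_pow, ← pow_mul, mul_comm r 2, mul_one_div]
    rw [e2]
    exact (((D.ppow (2 * r)).mul0' ((D.inv hnd).pow0 2)).neg).mono (by omega)
  have e3 : G (p ^ r) (p * m + 1) * ∏ i ∈ range y, (1 - ((p ^ r : ℕ) : ℚ) ^ 2 / ((p * m + 1 + i : ℕ) : ℚ) ^ 2)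
      - G (p ^ r) (p * m + 1)
      = G (p ^ r) (p * m + 1) * (∏ i ∈ range y, (1 - ((p ^ r : ℕ) : ℚ) ^ 2 / ((p * m + 1 + i : ℕ) : ℚ) ^ 2) - 1) := by
    ring
  rw [e3]
  exact h0.mul0 h1

theorem cross {r : ℕ} (hr : 2 ≤ r) (hp5 : 5 ≤ p) :
    D p 3 (∑ j ∈ range (p ^ r), q p 3 j * (G (p ^ r) j ^ 2 - 1)) := by
  have key : ∀ M, p * M ≤ p ^ r → D p 3 (∑ j ∈ range (p * M), q p 3 j * (G (p ^ r) j ^ 2 - 1)) := by
    intro M
    induction M with
    | zero => intro _; simpa using D.zero 3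
    | succ M ih =>
      intro hM
      rw [Nat.mul_succ] at hM ⊢
      rw [Finset.sum_range_add]
      refine (ih (by omega)).add ?_
      have h1 : ∀ x ∈ range p, D p 4 (q p 3 (p * M + x) * (G (p ^ r) (p * M + x) ^ 2 - 1)
          - (G (p ^ r) (p * M + 1) ^ 2 - 1) * q p 3 (p * M + x)) := by
        intro x hx
        rw [Finset.mem_range] at hx
        rcases Nat.eq_zero_or_pos x with rfl | hx0
        · rw [add_zero, q_zero_of (dvd_mul_right p M)]
          simpa using D.zero 4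
        · obtain ⟨y, rfl⟩ : ∃ y, x = 1 + y := ⟨x - 1, by omega⟩
          rw [← add_assoc]
          have h2 := G_block (p := p) (r := r) (m := M) (y := y) hr (by omega) (by omega)
          have h3 : D p 0 (G (p ^ r) (p * M + 1 + y) + G (p ^ r) (p * M + 1)) :=
            (D_G0 (by omega)).add (D_G0 (by omega))
          have e : q p 3 (p * M + 1 + y) * (G (p ^ r) (p * M + 1 + y) ^ 2 - 1)
              - (G (p ^ r) (p * M + 1) ^ 2 - 1) * q p 3 (p * M + 1 + y)
              = q p 3 (p * M + 1 + y) * ((G (p ^ r) (p * M + 1 + y) + G (p ^ r) (p * M + 1))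
                * (G (p ^ r) (p * M + 1 + y) - G (p ^ r) (p * M + 1))) := by ring
          rw [e]
          exact (D_q 3 _).mul0 (h3.mul0 h2)
      have h4 := D.sum _ _ h1
      rw [Finset.sum_sub_distrib, ← Finset.mul_sum] at h4
      have h5 : D p 3 ((G (p ^ r) (p * M + 1) ^ 2 - 1) * ∑ x ∈ range p, q p 3 (p * M + x)) := by
        have h6 : D p 1 (∑ x ∈ range p, q p 3 (p * M + x)) := by
          have h7 : D p 1 (∑ x ∈ range p, (q p 3 (p * M + x) - q p 3 x)) := by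
            refine D.sum _ _ fun x _ => D_q_congr le_rfl ?_
            push_cast
            exact ⟨M, by ring⟩
          have h8 := harm_three (p := p) (s := 1) le_rfl hp5
          rw [pow_one] at h8
          rw [Finset.sum_sub_distrib] at h7
          have := h7.add h8
          rwa [sub_add_cancel] at this
        exact (D_Gsq (by have := hp.out.pos; omega)).mul h6
      have := (h4.mono (show 3 ≤ 4 by norm_num)).add h5
      rwa [sub_add_cancel] at this
  have h := key (p ^ (r - 1)) (by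
    rw [← pow_succ', show r - 1 + 1 = r by omega])
  rwa [← pow_succ', show r - 1 + 1 = r by omega] at h

/-- the indices prime to `p` -/
theorem partA {r : ℕ} (hr : 2 ≤ r) (hp5 : 5 ≤ p) :
    D p (3 * r + 3) (∑ j ∈ range (p ^ r), (if p ∣ j then 0 else τ (p ^ r) j)) := by
  rw [part_eq]
  have hnp : ((p ^ r : ℕ) : ℚ) = (p : ℚ) ^ r := by push_cast; rfl
  have h4 : D p 1 (∑ j ∈ range (p ^ r), q p 4 j) := by
    have h := block (p := p) 4 1 (p ^ (r - 1)) le_rfl
    rw [pow_one, ← pow_succ', show r - 1 + 1 = r by omega] at h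
    have h5 : D p 1 (((p ^ (r - 1) : ℕ) : ℚ) * ∑ i ∈ range p, q p 4 i) := by
      have h6 : D p 0 (∑ i ∈ range p, q p 4 i) := D.sum _ _ fun i _ => D_q 4 i
      have h7 : D p 1 (((p ^ (r - 1) : ℕ) : ℚ)) := by
        have := (D.ppow (p := p) (r - 1)).mono (show 1 ≤ r - 1 by omega)
        exact_mod_cast this
      exact h7.mul0' h6
    have := h.add h5
    rwa [sub_add_cancel] at this
  have hnD : D p r ((p ^ r : ℕ) : ℚ) := by rw [hnp]; exact D.ppow r
  have h3 : D p 3 (∑ j ∈ range (p ^ r), q p 3 j) := by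
    have hpair := (pair (p := p) (r := r) (by omega)).mono (show 3 ≤ r + r by omega)
    have h5 : D p 3 (3 * ((p ^ r : ℕ) : ℚ) * ∑ j ∈ range (p ^ r), q p 4 j) := by
      have h6 : D p r (3 * ((p ^ r : ℕ) : ℚ)) := by
        have := (D.nat (p := p) 3).mul0 hnD
        exact_mod_cast this
      exact (h6.mul h4).mono (by omega)
    have h7 := hpair.sub h5
    rw [add_sub_cancel_right] at h7
    have h2 : ¬ p ∣ 2 := not_dvd_of_lt (by norm_num) (by omega)
    refine D.cancel h2 ?_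
    exact_mod_cast h7
  have h5 : D p 3 (((p ^ r : ℕ) : ℚ) * ∑ j ∈ range (p ^ r), q p 4 j) := (hnD.mul h4).mono (by omega)
  have h6 := cross (p := p) hr hp5
  have h7 : D p 3 (((p ^ r : ℕ) : ℚ) * ∑ j ∈ range (p ^ r), q p 4 j * (G (p ^ r) j ^ 2 - 1)) := by
    have h8 : D p 2 (∑ j ∈ range (p ^ r), q p 4 j * (G (p ^ r) j ^ 2 - 1)) :=
      D.sum _ _ fun j hj => (D_q 4 j).mul0 (D_Gsq (Finset.mem_range.1 hj).le)
    exact (hnD.mul h8).mono (by omega)
  have h8 : D p (3 * r) (-((p ^ r : ℕ) : ℚ) ^ 3) := by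
    have := (D.ppow (p := p) (3 * r)).neg
    have e : -((p ^ r : ℕ) : ℚ) ^ 3 = -((p : ℚ) ^ (3 * r)) := by
      rw [hnp, ← pow_mul, mul_comm r 3]
    rw [e]
    exact this
  exact h8.mul ((h3.sub h5).add (h6.sub h7))

theorem power_case {r : ℕ} (hr : 2 ≤ r) (hp5 : 5 ≤ p) :
    (p : ℤ) ^ (3 * r + 3) ∣ (a (p ^ r) : ℤ) - (a (p ^ (r - 1)) : ℤ) := by
  have hpos : ∀ m, 1 ≤ p ^ m := fun m => Nat.one_le_pow _ _ hp.out.pos
  have e1 := a_eq (p ^ r) (hpos r)
  have e2 := a_eq (p ^ (r - 1)) (hpos (r - 1))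
  have hn : p * p ^ (r - 1) = p ^ r := by
    rw [← pow_succ']
    congr 1
    omega
  have hs := split_sum (p := p) (p ^ (r - 1)) (fun j => τ (p ^ r) j)
  rw [hn] at hs
  have hB := partB (p := p) hr hp5
  rw [hn, Finset.sum_sub_distrib] at hB
  have hA := partA (p := p) hr hp5
  refine D.dvd (p := p) ?_
  push_cast
  rw [e1, e2, hs]
  have e : 1 + (∑ j ∈ range (p ^ (r - 1)), τ (p ^ r) (p * j) + ∑ j ∈ range (p ^ r), (if p ∣ j then 0 else τ (p ^ r) j))
      - (1 + ∑ j ∈ range (p ^ (r - 1)), τ (p ^ (r - 1)) j)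
      = (∑ j ∈ range (p ^ (r - 1)), τ (p ^ r) (p * j) - ∑ j ∈ range (p ^ (r - 1)), τ (p ^ (r - 1)) j)
        + ∑ j ∈ range (p ^ r), (if p ∣ j then 0 else τ (p ^ r) j) := by ring
  rw [e]
  exact hB.add hA

end Q279.BA
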