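import Pool.Agent.Q279.BA.D

/-!
# Harmonic sums modulo prime powers
-/

set_option autoImplicit false

namespace Q279.BA

open Finset

theorem sum_perm {M c c' : ℕ} (hM : 0 < M) (hc : c * c' % M = 1 % M) (f : ℕ → ℚ) :
    ∑ i ∈ range M, f (c * i % M) = ∑ i ∈ range M, f i := by
  refine Finset.sum_nbij' (fun i => c * i % M) (fun i => c' * i % M) ?_ ?_ ?_ ?_ ?_
  · intro i _
    exact Finset.mem_range.2 (Nat.mod_lt _ hM)
  · intro i _
    exact Finset.mem_range.2 (Nat.mod_lt _ hM)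
  · intro i hi
    rw [Finset.mem_range] at hi
    rw [Nat.mul_mod_mod, ← mul_assoc, mul_comm c' c, Nat.mul_mod, hc, ← Nat.mul_mod, one_mul, Nat.mod_eq_of_lt hi]
  · intro i hi
    rw [Finset.mem_range] at hi
    rw [Nat.mul_mod_mod, ← mul_assoc, Nat.mul_mod, hc, ← Nat.mul_mod, one_mul, Nat.mod_eq_of_lt hi]
  · intro i _
    rfl

variable {p : ℕ} [hp : Fact p.Prime]

theorem q_mul {c : ℕ} (hc : ¬ p ∣ c) (k i : ℕ) : q p k (c * i) = 1 / (c : ℚ) ^ k * q p k i := by
  unfold q
  by_cases h : p ∣ i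
  · rw [if_pos h, if_pos (Dvd.dvd.mul_left h c), mul_zero]
  · rw [if_neg h, if_neg (not_dvd_mul hc h)]
    push_cast
    rw [mul_pow, one_div_mul_one_div]

/-- full harmonic sums -/
theorem harm (k s c : ℕ) (hs : 1 ≤ s) (hc : ¬ p ∣ c) (hck : ¬ (p : ℤ) ∣ (c : ℤ) ^ k - 1) :
    D p s (∑ i ∈ range (p ^ s), q p k i) := by
  have hM : 0 < p ^ s := pow_pos hp.out.pos s
  have hcop : Nat.Coprime c (p ^ s) := Nat.Coprime.pow_right s ((Nat.Prime.coprime_iff_not_dvd hp.out).2 hc).symm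
  obtain ⟨c', hc'⟩ : ∃ c', c * c' % (p ^ s) = 1 % (p ^ s) := by
    obtain ⟨c', h⟩ := Nat.exists_mul_mod_eq_one_of_coprime hcop (by
      exact Nat.one_lt_pow (by omega) hp.out.one_lt)
    refine ⟨c', ?_⟩
    rw [h.2, Nat.mod_eq_of_lt (Nat.one_lt_pow (by omega) hp.out.one_lt)]
  have h1 := sum_perm hM hc' (q p k)
  have h2 : D p s (∑ i ∈ range (p ^ s), (q p k (c * i % p ^ s) - q p k (c * i))) := by
    refine D.sum _ _ fun i _ => D_q_congr hs ?_
    have := Nat.mod_modEq (c * i) (p ^ s)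
    have h3 := (Nat.modEq_iff_dvd.1 this)
    push_cast at h3 ⊢
    rw [← neg_sub, dvd_neg]
    exact h3
  rw [Finset.sum_sub_distrib, h1] at h2
  simp only [q_mul hc] at h2
  rw [← Finset.mul_sum] at h2
  set S := ∑ i ∈ range (p ^ s), q p k i with hS
  have hc0 := ne_zero_of_not_dvd hc
  have h3 : D p s ((((c : ℤ) ^ k - 1 : ℤ) : ℚ) * S) := by
    have := (D.nat (p := p) (c ^ k)).mul0 h2
    push_cast at this ⊢
    have e : (c : ℚ) ^ k * (S - 1 / (c : ℚ) ^ k * S) = ((c : ℚ) ^ k - 1) * S := by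
      field_simp
    rwa [e] at this
  have hn : ¬ p ∣ ((c : ℤ) ^ k - 1).natAbs := by
    intro h
    apply hck
    exact Int.natCast_dvd.2 h
  refine D.cancel hn ?_
  rcases Int.natAbs_eq ((c : ℤ) ^ k - 1) with h | h
  · have e : (((((c : ℤ) ^ k - 1).natAbs : ℕ)) : ℚ) = (((c : ℤ) ^ k - 1 : ℤ) : ℚ) := by
      conv_rhs => rw [h]
      simp
    rw [e]
    exact h3
  · have e : (((((c : ℤ) ^ k - 1).natAbs : ℕ)) : ℚ) = -(((c : ℤ) ^ k - 1 : ℤ) : ℚ) := by
      conv_rhs => rw [h]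
      simp
    rw [e, neg_mul]
    exact h3.neg

/-- blocks -/
theorem block (k s l : ℕ) (hs : 1 ≤ s) :
    D p s (∑ i ∈ range (p ^ s * l), q p k i - l * ∑ i ∈ range (p ^ s), q p k i) := by
  induction l with
  | zero => simpa using D.zero s
  | succ l ih =>
    rw [Nat.mul_succ, Finset.sum_range_add]
    have h : D p s (∑ x ∈ range (p ^ s), (q p k (p ^ s * l + x) - q p k x)) := by
      refine D.sum _ _ fun x _ => D_q_congr hs ?_
      push_cast
      exact ⟨l, by ring⟩
    rw [Finset.sum_sub_distrib] at h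
    have e : ∑ x ∈ range (p ^ s * l), q p k x + ∑ x ∈ range (p ^ s), q p k (p ^ s * l + x)
        - ((l + 1 : ℕ) : ℚ) * ∑ i ∈ range (p ^ s), q p k i
        = (∑ x ∈ range (p ^ s * l), q p k x - l * ∑ i ∈ range (p ^ s), q p k i)
          + (∑ x ∈ range (p ^ s), q p k (p ^ s * l + x) - ∑ x ∈ range (p ^ s), q p k x) := by
      push_cast
      ring
    rw [e]
    exact ih.add h

/-- refined blocks for squares -/
theorem block_two (s l : ℕ) (hs : 1 ≤ s) (h3 : D p 1 (∑ i ∈ range (p ^ s), q p 3 i)) :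
    D p (s + 1) (∑ i ∈ range (p ^ s * l), q p 2 i - l * ∑ i ∈ range (p ^ s), q p 2 i) := by
  induction l with
  | zero => simpa using D.zero (s + 1)
  | succ l ih =>
    rw [Nat.mul_succ, Finset.sum_range_add]
    have h : D p (s + 1) (∑ x ∈ range (p ^ s), (q p 2 (p ^ s * l + x) - q p 2 x
        + ((p : ℚ) ^ s * (2 * l)) * q p 3 x)) := by
      refine D.sum _ _ fun x _ => ?_
      unfold q
      have hps : p ∣ p ^ s * l := (dvd_pow_self p (by omega)).mul_right l
      by_cases hx : p ∣ x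
      · rw [if_pos hx, if_pos hx, if_pos ((Nat.dvd_add_right hps).2 hx)]
        simpa using D.zero (s + 1)
      · have hy : ¬ p ∣ p ^ s * l + x := fun h => hx ((Nat.dvd_add_right hps).1 h)
        rw [if_neg hx, if_neg hx, if_neg hy]
        have hx0 := ne_zero_of_not_dvd hx
        have hy0 := ne_zero_of_not_dvd hy
        push_cast at hy0 ⊢
        have e : 1 / ((p : ℚ) ^ s * l + x) ^ 2 - 1 / (x : ℚ) ^ 2 + (p : ℚ) ^ s * (2 * l) * (1 / (x : ℚ) ^ 3)
            = ((p : ℚ) ^ s * (p : ℚ) ^ s) * ((((l ^ 2 * (3 * x + 2 * (p ^ s * l)) : ℕ)) : ℚ)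
              * ((1 / (x : ℚ)) ^ 3 * (1 / (((p ^ s * l + x : ℕ)) : ℚ)) ^ 2)) := by
          push_cast
          field_simp
          ring
        rw [e]
        refine D.mono (((D.ppow s).mul (D.ppow s)).mul0' ((D.nat _).mul0
          (((D.inv hx).pow0 3).mul0 ((D.inv hy).pow0 2)))) (by omega)
    rw [Finset.sum_add_distrib, Finset.sum_sub_distrib, ← Finset.mul_sum] at h
    have h4 : D p (s + 1) ((p : ℚ) ^ s * (2 * l) * ∑ i ∈ range (p ^ s), q p 3 i) := by
      have h5 : D p s ((p : ℚ) ^ s * (2 * l)) := by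
        have := (D.ppow (p := p) s).mul0' (D.nat (2 * l))
        push_cast at this
        exact this
      exact h5.mul h3
    have e : ∑ x ∈ range (p ^ s * l), q p 2 x + ∑ x ∈ range (p ^ s), q p 2 (p ^ s * l + x)
        - ((l + 1 : ℕ) : ℚ) * ∑ i ∈ range (p ^ s), q p 2 i
        = (∑ x ∈ range (p ^ s * l), q p 2 x - l * ∑ i ∈ range (p ^ s), q p 2 i)
          + (∑ x ∈ range (p ^ s), q p 2 (p ^ s * l + x) - ∑ x ∈ range (p ^ s), q p 2 x
            + (p : ℚ) ^ s * (2 * l) * ∑ i ∈ range (p ^ s), q p 3 i)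
          - (p : ℚ) ^ s * (2 * l) * ∑ i ∈ range (p ^ s), q p 3 i := by
      push_cast
      ring
    rw [e]
    exact (ih.add h).sub h4

/-- splitting off the multiples of `p` -/
theorem split_sum (N : ℕ) (f : ℕ → ℚ) : ∑ j ∈ range (p * N), f j =
    ∑ j ∈ range N, f (p * j) + ∑ j ∈ range (p * N), (if p ∣ j then 0 else f j) := by
  induction N with
  | zero => simp
  | succ N ih =>
    rw [Nat.mul_succ, Finset.sum_range_add, Finset.sum_range_add (fun j => if p ∣ j then 0 else f j),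
      Finset.sum_range_succ (fun j => f (p * j)), ih]
    obtain ⟨m, hm⟩ : ∃ m, p = m + 1 := ⟨p - 1, by have := hp.out.pos; omega⟩
    have e1 : ∑ x ∈ range p, f (p * N + x) = f (p * N) + ∑ x ∈ range m, f (p * N + (x + 1)) := by
      conv_lhs => rw [show range p = range (m + 1) by rw [← hm]]
      rw [Finset.sum_range_succ', add_zero, add_comm]
    have e2 : ∑ x ∈ range p, (if p ∣ p * N + x then 0 else f (p * N + x))
        = ∑ x ∈ range m, f (p * N + (x + 1)) := by
      conv_lhs => rw [show range p = range (m + 1) by rw [← hm]]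
      rw [Finset.sum_range_succ', add_zero, if_pos (dvd_mul_right p N), add_zero]
      refine Finset.sum_congr rfl fun x hx => ?_
      rw [Finset.mem_range] at hx
      rw [if_neg]
      intro h
      have := Nat.le_of_dvd (by omega) ((Nat.dvd_add_right (dvd_mul_right p N)).1 h)
      omega
    rw [e1, e2]
    ring

end Q279.BA
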