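import Pool.Agent.Q279.BA.Harm

/-!
# The sums `∑ C(n,j) C(n-1,j) C(n+j-1,j)^2`
-/

set_option autoImplicit false

namespace Q279.BA

open Finset

/-- the summand -/
def t (n j : ℕ) : ℕ := n.choose j * (n - 1).choose j * (n + j - 1).choose j ^ 2

/-- `∏_{i<j} (1 - n² / i²)`, the factor `i = 0` being `1` -/
def G (n j : ℕ) : ℚ := ∏ i ∈ range j, (1 - (n : ℚ) ^ 2 / (i : ℚ) ^ 2)

theorem G_succ (n j : ℕ) : G n (j + 1) = G n j * (1 - (n : ℚ) ^ 2 / (j : ℚ) ^ 2) := by
  unfold G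
  rw [Finset.prod_range_succ]

theorem x_eq (n k : ℕ) (hn : 1 ≤ n) : ((n - 1).choose k : ℚ) * ((n + k).choose k : ℚ) = (-1) ^ k * G n (k + 1) := by
  induction k with
  | zero => simp [G]
  | succ k ih =>
    rw [G_succ n (k + 1), pow_succ]
    have h1 : ((n - 1).choose (k + 1) : ℚ) * (k + 1) = ((n - 1).choose k : ℚ) * (n - 1 - k) := by
      have h := Nat.choose_succ_right_eq (n - 1) k
      rcases le_or_gt k (n - 1) with hk | hk
      · have h2 : ((n - 1).choose (k + 1) : ℚ) * (k + 1) = ((n - 1).choose k : ℚ) * ((n - 1 - k : ℕ) : ℚ) := by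
          exact_mod_cast h
        rw [h2, Nat.cast_sub hk, Nat.cast_sub hn]
        push_cast
        ring
      · rw [Nat.choose_eq_zero_of_lt hk, Nat.choose_eq_zero_of_lt (by omega)]
        simp
    have h2 : ((n + (k + 1)).choose (k + 1) : ℚ) * (k + 1) = ((n + k).choose k : ℚ) * (n + k + 1) := by
      have h := Nat.add_one_mul_choose_eq (n + k) k
      have h' : ((n + k + 1 : ℕ) : ℚ) * ((n + k).choose k : ℚ) = ((n + k + 1).choose (k + 1) : ℚ) * ((k + 1 : ℕ) : ℚ) := by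
        exact_mod_cast h
      push_cast at h'
      rw [show n + (k + 1) = n + k + 1 by ring]
      linarith
    have hk0 : ((k : ℚ) + 1) ≠ 0 := by positivity
    push_cast
    have e : ((n - 1).choose (k + 1) : ℚ) * ((n + (k + 1)).choose (k + 1) : ℚ) * ((k : ℚ) + 1) ^ 2
        = ((n - 1).choose k : ℚ) * ((n + k).choose k : ℚ) * (n ^ 2 - (k + 1) ^ 2) := by
      linear_combination ((n + (k + 1)).choose (k + 1) : ℚ) * (k + 1) * h1
        + ((n - 1).choose k : ℚ) * (n - 1 - k) * h2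
    rw [ih] at e
    field_simp
    field_simp at e
    linear_combination e

/-- the summand for positive index -/
def τ (n j : ℕ) : ℚ := -((n : ℚ) / j) ^ 3 * (1 - (n : ℚ) / j) * G n j ^ 2

theorem t_eq (n j : ℕ) (hn : 1 ≤ n) (hj : 1 ≤ j) : (t n j : ℚ) = τ n j := by
  obtain ⟨k, rfl⟩ : ∃ k, j = k + 1 := ⟨j - 1, by omega⟩
  obtain ⟨m, rfl⟩ : ∃ m, n = m + 1 := ⟨n - 1, by omega⟩
  have hx := x_eq (m + 1) k hn
  rw [Nat.add_sub_cancel] at hx
  unfold t τ
  rw [Nat.add_sub_cancel, show m + 1 + (k + 1) - 1 = m + 1 + k by omega]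
  have h0 : ((m + 1).choose (k + 1) : ℚ) * (k + 1) = (m + 1) * (m.choose k : ℚ) := by
    have h := Nat.add_one_mul_choose_eq m k
    have h' : ((m + 1 : ℕ) : ℚ) * (m.choose k : ℚ) = ((m + 1).choose (k + 1) : ℚ) * ((k + 1 : ℕ) : ℚ) := by
      exact_mod_cast h
    push_cast at h'
    linarith
  have h1 : (m.choose (k + 1) : ℚ) * (k + 1) = (m.choose k : ℚ) * (m - k) := by
    have h := Nat.choose_succ_right_eq m k
    rcases le_or_gt k m with hk | hk
    · have h2 : (m.choose (k + 1) : ℚ) * (k + 1) = (m.choose k : ℚ) * ((m - k : ℕ) : ℚ) := by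
        exact_mod_cast h
      rw [h2, Nat.cast_sub hk]
    · rw [Nat.choose_eq_zero_of_lt hk, Nat.choose_eq_zero_of_lt (by omega)]
      simp
  have h2 : ((m + 1 + k).choose (k + 1) : ℚ) * (k + 1) = ((m + 1 + k).choose k : ℚ) * (m + 1) := by
    have h := Nat.choose_succ_right_eq (m + 1 + k) k
    rw [Nat.add_sub_cancel] at h
    exact_mod_cast h
  have hk0 : ((k : ℚ) + 1) ≠ 0 := by positivity
  have h3 : ((m.choose k : ℚ) * ((m + 1 + k).choose k : ℚ)) ^ 2 = G (m + 1) (k + 1) ^ 2 := by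
    rw [hx, mul_pow, ← pow_mul, mul_comm k 2, pow_mul]
    norm_num
  rw [← h3]
  push_cast
  have e0 : ((m + 1).choose (k + 1) : ℚ) = (m + 1) * (m.choose k : ℚ) / (k + 1) := by
    rw [eq_div_iff hk0, h0]
  have e1 : (m.choose (k + 1) : ℚ) = (m.choose k : ℚ) * (m - k) / (k + 1) := by
    rw [eq_div_iff hk0, h1]
  have e2 : ((m + 1 + k).choose (k + 1) : ℚ) = ((m + 1 + k).choose k : ℚ) * (m + 1) / (k + 1) := by
    rw [eq_div_iff hk0, h2]
  rw [e0, e1, e2]
  field_simp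
  ring

theorem τ_zero (n : ℕ) : τ n 0 = 0 := by
  simp [τ]

/-- the sum -/
def a (n : ℕ) : ℕ := ∑ j ∈ range n, t n j

theorem a_eq (n : ℕ) (hn : 1 ≤ n) : (a n : ℚ) = 1 + ∑ j ∈ range n, τ n j := by
  obtain ⟨m, rfl⟩ : ∃ m, n = m + 1 := ⟨n - 1, by omega⟩
  unfold a
  push_cast
  rw [Finset.sum_range_succ', Finset.sum_range_succ' (fun j => τ (m + 1) j), τ_zero]
  have h0 : (t (m + 1) 0 : ℚ) = 1 := by simp [t]
  rw [h0, add_zero, add_comm]
  congr 1
  exact Finset.sum_congr rfl fun j _ => t_eq _ _ (by omega) (by omega)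

end Q279.BA
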