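import Pool.Agent.Q279.BA.Est

/-!
# Prime powers
-/

set_option autoImplicit false
set_option linter.unusedSectionVars false

namespace Q279.BA

open Finset

variable {p : ℕ} [hp : Fact p.Prime]

/-- splitting off the multiples of `K` -/
theorem split_sum_gen (K : ℕ) (hK : 0 < K) (N : ℕ) (f : ℕ → ℚ) : ∑ j ∈ range (K * N), f j =
    ∑ j ∈ range N, f (K * j) + ∑ j ∈ range (K * N), (if K ∣ j then 0 else f j) := by
  induction N with
  | zero => simp
  | succ N ih =>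
    rw [Nat.mul_succ, Finset.sum_range_add, Finset.sum_range_add (fun j => if K ∣ j then 0 else f j),
      Finset.sum_range_succ (fun j => f (K * j)), ih]
    obtain ⟨m, hm⟩ : ∃ m, K = m + 1 := ⟨K - 1, by omega⟩
    have e1 : ∑ x ∈ range K, f (K * N + x) = f (K * N) + ∑ x ∈ range m, f (K * N + (x + 1)) := by
      conv_lhs => rw [show range K = range (m + 1) by rw [← hm]]
      rw [Finset.sum_range_succ', add_zero, add_comm]
    have e2 : ∑ x ∈ range K, (if K ∣ K * N + x then 0 else f (K * N + x))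
        = ∑ x ∈ range m, f (K * N + (x + 1)) := by
      conv_lhs => rw [show range K = range (m + 1) by rw [← hm]]
      rw [Finset.sum_range_succ', add_zero, if_pos (dvd_mul_right K N), add_zero]
      refine Finset.sum_congr rfl fun x hx => ?_
      rw [Finset.mem_range] at hx
      rw [if_neg]
      intro h
      have := Nat.le_of_dvd (by omega) ((Nat.dvd_add_right (dvd_mul_right K N)).1 h)
      omega
    rw [e1, e2]
    ring

/-- the factors with index prime to `p` -/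
def V (p n j : ℕ) : ℚ := ∏ i ∈ range j, (if p ∣ i then 1 else 1 - (n : ℚ) ^ 2 / (i : ℚ) ^ 2)

theorem G_split (N j : ℕ) : G (p * N) (p * j) = G N j * V p (p * N) (p * j) := by
  induction j with
  | zero => simp [G, V]
  | succ j ih =>
    rw [Nat.mul_succ]
    unfold G V at ih ⊢
    rw [Finset.prod_range_add, Finset.prod_range_succ (fun i => 1 - (N : ℚ) ^ 2 / (i : ℚ) ^ 2),
      Finset.prod_range_add (fun i => if p ∣ i then (1 : ℚ) else 1 - ((p * N : ℕ) : ℚ) ^ 2 / (i : ℚ) ^ 2), ih]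
    obtain ⟨m, hm⟩ : ∃ m, p = m + 1 := ⟨p - 1, by have := hp.out.pos; omega⟩
    have e1 : ∏ x ∈ range p, (1 - ((p * N : ℕ) : ℚ) ^ 2 / ((p * j + x : ℕ) : ℚ) ^ 2)
        = (∏ x ∈ range m, (1 - ((p * N : ℕ) : ℚ) ^ 2 / ((p * j + (x + 1) : ℕ) : ℚ) ^ 2))
          * (1 - (N : ℚ) ^ 2 / (j : ℚ) ^ 2) := by
      conv_lhs => rw [show range p = range (m + 1) by rw [← hm]]
      rw [Finset.prod_range_succ', add_zero]
      congr 1
      have hp0 : (p : ℚ) ≠ 0 := p_ne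
      push_cast
      rw [mul_pow, mul_pow, mul_div_mul_left _ _ (pow_ne_zero 2 hp0)]
    have e2 : ∏ x ∈ range p, (if p ∣ p * j + x then (1 : ℚ) else 1 - ((p * N : ℕ) : ℚ) ^ 2 / ((p * j + x : ℕ) : ℚ) ^ 2)
        = ∏ x ∈ range m, (1 - ((p * N : ℕ) : ℚ) ^ 2 / ((p * j + (x + 1) : ℕ) : ℚ) ^ 2) := by
      conv_lhs => rw [show range p = range (m + 1) by rw [← hm]]
      rw [Finset.prod_range_succ', add_zero, if_pos (dvd_mul_right p j), mul_one]
      refine Finset.prod_congr rfl fun x hx => ?_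
      rw [Finset.mem_range] at hx
      rw [if_neg]
      intro h
      have := Nat.le_of_dvd (by omega) ((Nat.dvd_add_right (dvd_mul_right p j)).1 h)
      omega
    rw [e1, e2]
    ring

theorem V_two (r j : ℕ) : D p (2 * r + 2 * r) (V p (p ^ r) j - 1 + ((p : ℚ) ^ (2 * r)) * ∑ i ∈ range j, q p 2 i) := by
  have h := D.prod_two (p := p) (k := 2 * r) (range j) (fun i => -((p : ℚ) ^ (2 * r) * q p 2 i)) (by
    intro i _
    exact ((D.ppow (2 * r)).mul0' (D_q 2 i)).neg)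
  have e1 : ∏ i ∈ range j, (1 + -((p : ℚ) ^ (2 * r) * q p 2 i)) = V p (p ^ r) j := by
    unfold V q
    refine Finset.prod_congr rfl fun i _ => ?_
    split_ifs with h
    · ring
    · push_cast
      rw [← pow_mul, mul_comm r 2]
      ring
  rw [e1, Finset.sum_neg_distrib, ← Finset.mul_sum, sub_neg_eq_add] at h
  exact h

theorem V_sq (r j : ℕ) : D p (2 * r + 2 * r) (V p (p ^ r) j ^ 2 - 1 + 2 * ((p : ℚ) ^ (2 * r)) * ∑ i ∈ range j, q p 2 i) := by
  have h := V_two (p := p) r j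
  have h0 : D p 0 (∑ i ∈ range j, q p 2 i) := D.sum _ _ fun i _ => D_q 2 i
  have h1 : D p (2 * r) (V p (p ^ r) j - 1) := by
    have := (h.mono (show 2 * r ≤ 2 * r + 2 * r by omega)).sub ((D.ppow (2 * r)).mul0' h0)
    rwa [add_sub_cancel_right] at this
  have e : V p (p ^ r) j ^ 2 - 1 + 2 * ((p : ℚ) ^ (2 * r)) * ∑ i ∈ range j, q p 2 i
      = (V p (p ^ r) j - 1) * (V p (p ^ r) j - 1)
        + ((2 : ℕ) : ℚ) * (V p (p ^ r) j - 1 + ((p : ℚ) ^ (2 * r)) * ∑ i ∈ range j, q p 2 i) := by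
    push_cast
    ring
  rw [e]
  exact (h1.mul h1).add ((D.nat 2).mul0 h)

theorem τ_split (N j : ℕ) : τ (p * N) (p * j) - τ N j = τ N j * (V p (p * N) (p * j) ^ 2 - 1) := by
  unfold τ
  rw [G_split]
  have hp0 : (p : ℚ) ≠ 0 := p_ne
  push_cast
  rw [mul_div_mul_left _ _ hp0]
  ring

/-- sums of inverse squares over an initial segment -/
theorem S_bound {e l : ℕ} (hp5 : 5 ≤ p) : D p (e + 1) (∑ i ∈ range (p * (p ^ e * l)), q p 2 i) := by
  have h1 := block (p := p) 2 (e + 1) l (by omega)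
  have h2 := harm_two (p := p) (s := e + 1) (by omega) hp5
  have e1 : p * (p ^ e * l) = p ^ (e + 1) * l := by rw [pow_succ]; ring
  rw [e1]
  have := h1.add ((D.nat l).mul0 h2)
  rwa [sub_add_cancel] at this

theorem τ_bound {m e l : ℕ} (hl : ¬ p ∣ l) (he : e ≤ m) (hlt : p ^ e * l < p ^ m) :
    D p (3 * (m - e)) (τ (p ^ m) (p ^ e * l)) := by
  have h1 := D_ratio (p := p) hl he
  have h2 : D p 0 (1 - ((p ^ m : ℕ) : ℚ) / ((p ^ e * l : ℕ) : ℚ)) := D.one.sub (h1.mono (Nat.zero_le _))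
  have h3 : D p 0 (G (p ^ m) (p ^ e * l)) := D_G0 hlt.le
  unfold τ
  have h4 : D p (3 * (m - e)) (-(((p ^ m : ℕ) : ℚ) / ((p ^ e * l : ℕ) : ℚ)) ^ 3) := by
    have e : -(((p ^ m : ℕ) : ℚ) / ((p ^ e * l : ℕ) : ℚ)) ^ 3
        = -((((p ^ m : ℕ) : ℚ) / ((p ^ e * l : ℕ) : ℚ)) * (((p ^ m : ℕ) : ℚ) / ((p ^ e * l : ℕ) : ℚ))
          * (((p ^ m : ℕ) : ℚ) / ((p ^ e * l : ℕ) : ℚ))) := by ring
    rw [e]
    exact (((h1.mul h1).mul h1).neg).mono (by omega)
  exact (h4.mul0' h2).mul0' (h3.pow0 2)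

/-- indices of low valuation -/
theorem low {r j : ℕ} (hr : 2 ≤ r) (hp5 : 5 ≤ p) (hj : j < p ^ (r - 1)) (hK : ¬ p ^ (r - 2) ∣ j) :
    D p (3 * r + 3) (τ (p * p ^ (r - 1)) (p * j) - τ (p ^ (r - 1)) j) := by
  have hj0 : j ≠ 0 := by
    rintro rfl
    exact hK (dvd_zero _)
  obtain ⟨e, l, hl, he⟩ := Nat.exists_eq_pow_mul_and_not_dvd hj0 p hp.out.ne_one
  have hel : e + 1 ≤ r - 2 := by
    by_contra hc
    push Not at hc
    apply hK
    rw [he]
    exact (pow_dvd_pow p (by omega)).mul_right l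
  rw [τ_split]
  have hn : p * p ^ (r - 1) = p ^ r := by
    rw [← pow_succ']
    congr 1
    omega
  rw [hn]
  have h1 : D p (3 * (r - 1 - e)) (τ (p ^ (r - 1)) j) := by
    rw [he]
    exact τ_bound hl (by omega) (by rw [← he]; exact hj)
  have h2 : D p (2 * r + (e + 1)) (V p (p ^ r) (p * j) ^ 2 - 1) := by
    have h3 := V_sq (p := p) r (p * j)
    have h4 : D p (2 * r + (e + 1)) (2 * ((p : ℚ) ^ (2 * r)) * ∑ i ∈ range (p * j), q p 2 i) := by
      have h5 := S_bound (p := p) (e := e) (l := l) hp5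
      rw [← he] at h5
      have h6 : D p (2 * r) (2 * ((p : ℚ) ^ (2 * r))) := by
        have := (D.nat (p := p) 2).mul0 (D.ppow (p := p) (2 * r))
        exact_mod_cast this
      exact h6.mul h5
    have := (h3.mono (show 2 * r + (e + 1) ≤ 2 * r + 2 * r by omega)).sub h4
    rwa [add_sub_cancel_right] at this
  exact (h1.mul h2).mono (by omega)

/-- indices `p ^ (r - 2) * l` -/
theorem high {r l : ℕ} (hr : 2 ≤ r) (hp5 : 5 ≤ p) (hl : l < p) :
    D p (3 * r + 3) (τ (p * p ^ (r - 1)) (p * (p ^ (r - 2) * l)) - τ (p ^ (r - 1)) (p ^ (r - 2) * l)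
      - 2 * (p : ℚ) ^ (2 * r + 3) * (∑ i ∈ range (p ^ (r - 1)), q p 2 i) * q p 2 l) := by
  rcases Nat.eq_zero_or_pos l with rfl | hl0
  · rw [mul_zero, mul_zero, τ_zero, τ_zero, q_zero_of (dvd_zero p)]
    simpa using D.zero (3 * r + 3)
  have hpl : ¬ p ∣ l := not_dvd_of_lt hl0 hl
  have hl0' := ne_zero_of_not_dvd hpl
  rw [τ_split]
  have hn : p * p ^ (r - 1) = p ^ r := by
    rw [← pow_succ']
    congr 1
    omega
  rw [hn]
  set j := p ^ (r - 2) * l with hj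
  have hjlt : j < p ^ (r - 1) := by
    rw [hj, show r - 1 = r - 2 + 1 by omega, pow_succ]
    exact Nat.mul_lt_mul_of_pos_left hl (pow_pos hp.out.pos _)
  set S1 := ∑ i ∈ range (p ^ (r - 1)), q p 2 i with hS1
  have hS1D : D p (r - 1) S1 := harm_two (by omega) hp5
  -- the ratio
  have hratio : (((p ^ (r - 1) : ℕ) : ℚ) / (j : ℚ)) = (p : ℚ) * (1 / (l : ℚ)) := by
    have hp0 : (p : ℚ) ≠ 0 := p_ne
    rw [hj, show r - 1 = r - 2 + 1 by omega, pow_succ]
    push_cast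
    field_simp
  have hτ : D p 4 (τ (p ^ (r - 1)) j + (p : ℚ) ^ 3 * (1 / (l : ℚ)) ^ 3) := by
    unfold τ
    rw [hratio]
    have h1 : D p 1 ((p : ℚ) * (1 / (l : ℚ))) := by
      have := (D.ppow (p := p) 1).mul0' (D.inv hpl)
      rwa [pow_one] at this
    have h2 : D p 0 (G (p ^ (r - 1)) j ^ 2) := (D_G0 hjlt.le).pow0 2
    have h3 : D p 1 (G (p ^ (r - 1)) j ^ 2 - 1) := (D_Gsq hjlt.le).mono (by norm_num)
    have e : -((p : ℚ) * (1 / (l : ℚ))) ^ 3 * (1 - (p : ℚ) * (1 / (l : ℚ))) * G (p ^ (r - 1)) j ^ 2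
        + (p : ℚ) ^ 3 * (1 / (l : ℚ)) ^ 3
        = -((p : ℚ) ^ 3 * (1 / (l : ℚ)) ^ 3) * ((G (p ^ (r - 1)) j ^ 2 - 1)
          - (p : ℚ) * (1 / (l : ℚ)) * G (p ^ (r - 1)) j ^ 2) := by ring
    rw [e]
    have h4 : D p 3 (-((p : ℚ) ^ 3 * (1 / (l : ℚ)) ^ 3)) := ((D.ppow 3).mul0' ((D.inv hpl).pow0 3)).neg
    exact h4.mul (h3.sub (h1.mul0' h2))
  have hSl : D p r (∑ i ∈ range (p * j), q p 2 i - l * S1) := by
    have h := block_two (p := p) (r - 1) l (by omega) ((harm_three (by omega) hp5).mono (by omega))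
    rw [show r - 1 + 1 = r by omega] at h
    have e : p * j = p ^ (r - 1) * l := by
      rw [hj, show r - 1 = r - 2 + 1 by omega, pow_succ]
      ring
    rw [e]
    exact h
  have hV : D p (3 * r) (V p (p ^ r) (p * j) ^ 2 - 1 + 2 * (p : ℚ) ^ (2 * r) * (l * S1)) := by
    have h3 := (V_sq (p := p) r (p * j)).mono (show 3 * r ≤ 2 * r + 2 * r by omega)
    have h6 : D p (2 * r) (2 * ((p : ℚ) ^ (2 * r))) := by
      have := (D.nat (p := p) 2).mul0 (D.ppow (p := p) (2 * r))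
      exact_mod_cast this
    have h7 := (h6.mul hSl).mono (show 3 * r ≤ 2 * r + r by omega)
    have e : V p (p ^ r) (p * j) ^ 2 - 1 + 2 * (p : ℚ) ^ (2 * r) * (l * S1)
        = (V p (p ^ r) (p * j) ^ 2 - 1 + 2 * ((p : ℚ) ^ (2 * r)) * ∑ i ∈ range (p * j), q p 2 i)
          - 2 * ((p : ℚ) ^ (2 * r)) * (∑ i ∈ range (p * j), q p 2 i - l * S1) := by ring
    rw [e]
    exact h3.sub h7
  have hV' : D p (3 * r - 1) (V p (p ^ r) (p * j) ^ 2 - 1) := by
    have h6 : D p (2 * r) (2 * ((p : ℚ) ^ (2 * r))) := by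
      have := (D.nat (p := p) 2).mul0 (D.ppow (p := p) (2 * r))
      exact_mod_cast this
    have h8 := (h6.mul ((D.nat l).mul0 hS1D)).mono (show 3 * r - 1 ≤ 2 * r + (r - 1) by omega)
    have := (hV.mono (show 3 * r - 1 ≤ 3 * r by omega)).sub h8
    rwa [add_sub_cancel_right] at this
  have e : τ (p ^ (r - 1)) j * (V p (p ^ r) (p * j) ^ 2 - 1) - 2 * (p : ℚ) ^ (2 * r + 3) * S1 * q p 2 l
      = (τ (p ^ (r - 1)) j + (p : ℚ) ^ 3 * (1 / (l : ℚ)) ^ 3) * (V p (p ^ r) (p * j) ^ 2 - 1)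
        - (p : ℚ) ^ 3 * (1 / (l : ℚ)) ^ 3 * (V p (p ^ r) (p * j) ^ 2 - 1 + 2 * (p : ℚ) ^ (2 * r) * (l * S1)) := by
    rw [q_of hpl, pow_add]
    field_simp
    ring
  rw [e]
  have h1 := (hτ.mul hV').mono (show 3 * r + 3 ≤ 4 + (3 * r - 1) by omega)
  have h2 := (((D.ppow (p := p) 3).mul0' ((D.inv hpl).pow0 3)).mul hV).mono (show 3 * r + 3 ≤ 3 + 3 * r by omega)
  exact h1.sub h2

/-- the multiples of `p` -/
theorem partB {r : ℕ} (hr : 2 ≤ r) (hp5 : 5 ≤ p) :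
    D p (3 * r + 3) (∑ j ∈ range (p ^ (r - 1)), (τ (p * p ^ (r - 1)) (p * j) - τ (p ^ (r - 1)) j)) := by
  have hK : 0 < p ^ (r - 2) := pow_pos hp.out.pos _
  have hN : p ^ (r - 1) = p ^ (r - 2) * p := by
    rw [← pow_succ]
    congr 1
    omega
  have hs := split_sum_gen (p ^ (r - 2)) hK p (fun j => τ (p * p ^ (r - 1)) (p * j) - τ (p ^ (r - 1)) j)
  rw [← hN] at hs
  rw [hs]
  refine D.add ?_ ?_
  · have h1 : D p (3 * r + 3) (∑ l ∈ range p, (τ (p * p ^ (r - 1)) (p * (p ^ (r - 2) * l)) - τ (p ^ (r - 1)) (p ^ (r - 2) * l)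
      - 2 * (p : ℚ) ^ (2 * r + 3) * (∑ i ∈ range (p ^ (r - 1)), q p 2 i) * q p 2 l)) :=
      D.sum _ _ fun l hl => high hr hp5 (Finset.mem_range.1 hl)
    rw [Finset.sum_sub_distrib, ← Finset.mul_sum] at h1
    have h2 : D p (3 * r + 3) (2 * (p : ℚ) ^ (2 * r + 3) * (∑ i ∈ range (p ^ (r - 1)), q p 2 i)
        * ∑ l ∈ range p, q p 2 l) := by
      have h3 : D p (2 * r + 3) (2 * ((p : ℚ) ^ (2 * r + 3))) := by
        have := (D.nat (p := p) 2).mul0 (D.ppow (p := p) (2 * r + 3))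
        exact_mod_cast this
      have h4 := harm_two (p := p) (s := r - 1) (by omega) hp5
      have h5 := harm_two (p := p) (s := 1) le_rfl hp5
      rw [pow_one] at h5
      exact ((h3.mul h4).mul h5).mono (by omega)
    have := h1.add h2
    rwa [sub_add_cancel] at this
  · refine D.sum _ _ fun j hj => ?_
    split_ifs with h
    · exact D.zero _
    · exact low hr hp5 (Finset.mem_range.1 hj) h

end Q279.BA
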